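import Pool.Agent.Work.MP_9638d9_co.Data

/-!
For every `d ≥ 4` there is a non-evasive simplicial `d`-ball that is not locally constructible.
-/

namespace Pool.Agent.Results.MP_9638d9_co.NonEvasiveNotLC

open Finset Pool.Agent.Work.MP_9638d9_co

lemma pure_cone {d : ℕ} {v : ℕ} {C : Finset (Finset ℕ)} (hv : ∀ σ ∈ C, v ∉ σ) (hne : C.Nonempty)
    (h : Pure d C) : Pure (d + 1) (cone v C) := by
  have hc : ∀ σ ∈ cells d C, insert v σ ∈ cells (d + 1) (cone v C) := by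
    intro σ hσ
    rw [cells, mem_filter] at hσ ⊢
    refine ⟨mem_cone.mpr (Or.inr (Or.inr ⟨σ, hσ.1, rfl⟩)), ?_⟩
    rw [card_insert_of_notMem (hv σ hσ.1), hσ.2]
  intro ρ hρ
  rcases mem_cone.mp hρ with rfl | hρ | ⟨σ, hσ, rfl⟩
  · obtain ⟨τ, hτ⟩ := hne
    obtain ⟨σ, hσ, -⟩ := h τ hτ
    exact ⟨_, hc σ hσ, by simp⟩
  · obtain ⟨σ, hσ, hs⟩ := h ρ hρ
    exact ⟨_, hc σ hσ, hs.trans (subset_insert v σ)⟩
  · obtain ⟨τ, hτ, hs⟩ := h σ hσ
    exact ⟨_, hc τ hτ, insert_subset_insert v hs⟩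

lemma tower (k : ℕ) : ∃ C : Finset (Finset ℕ), C.Nonempty ∧
    (∃ N, ∀ σ ∈ C, ∀ v ∈ σ, v < N) ∧ IsBall (k + 3) C ∧ Pure (k + 3) C ∧ ¬ IsLC (k + 3) C ∧
    (0 < k → NonEvasive C) := by
  induction k with
  | zero =>
    refine ⟨gen ballL, ?_, ⟨12, ?_⟩, ball_isBall, ball_pure, ball_not_isLC, fun h => by omega⟩
    · exact ⟨dec 3, mem_gen.mpr ⟨dec_nonempty (by norm_num), 267, by decide,
        dec_subset_iff.mpr (by decide)⟩⟩
    · intro σ hσ v hv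
      obtain ⟨-, m, hm, hs⟩ := mem_gen.mp hσ
      have h1 := Nat.ge_two_pow_of_testBit (mem_dec.mp (hs hv))
      have h2 := ball_vertices m hm
      by_contra hc
      have h3 : 2 ^ 12 ≤ 2 ^ v := Nat.pow_le_pow_right (by norm_num) (by omega)
      omega
  | succ k ih =>
    obtain ⟨C, hne, ⟨N, hN⟩, hB, hP, hL, -⟩ := ih
    have hv : ∀ σ ∈ C, N ∉ σ := fun σ hσ h => lt_irrefl _ (hN σ hσ N h)
    refine ⟨cone N C, ⟨{N}, mem_cone.mpr (Or.inl rfl)⟩, ⟨N + 1, ?_⟩, isBall_cone hv hB,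
      pure_cone hv hne hP, fun h => hL (isLC_of_cone (by omega) hv h),
      fun _ => nonEvasive_cone N _ C le_rfl hB.1 hv⟩
    intro σ hσ v hvσ
    rcases mem_cone.mp hσ with rfl | hσ | ⟨τ, hτ, rfl⟩
    · rw [mem_singleton] at hvσ; omega
    · have := hN σ hσ v hvσ; omega
    · rcases mem_insert.mp hvσ with h | h
      · omega
      · have := hN τ hτ v h; omega

/-- In every dimension `d ≥ 4` there is a non-evasive simplicial `d`-ball which is not locally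
constructible. -/
theorem result : ∀ d : ℕ, 4 ≤ d → ∃ C : Finset (Finset ℕ),
    IsBall d C ∧ Pure d C ∧ NonEvasive C ∧ ¬ IsLC d C := by
  intro d hd
  obtain ⟨k, rfl⟩ : ∃ k, d = k + 1 + 3 := ⟨d - 4, by omega⟩
  obtain ⟨C, -, -, h1, h2, h3, h4⟩ := tower (k + 1)
  exact ⟨C, h1, h2, h4 (by omega), h3⟩

end Pool.Agent.Results.MP_9638d9_co.NonEvasiveNotLC
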