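import Pool.Agent.Work.MP_9638d9_co.GlueStage

/-!
Every non-evasive triangulated 3-manifold (in particular every non-evasive 3-ball) is locally
constructible.
-/

namespace Pool.Agent.Results.MP_9638d9_co.NonEvasiveThreeLC

open Pool.Agent.Work.MP_9638d9_co

universe u

/-- Let `C` be a finite pure 3-dimensional simplicial complex in which the link of every vertex is
a 2-sphere or a 2-disc (this is the case for every triangulated 3-ball). If `C` is non-evasive,
then `C` is locally constructible. -/
theorem result {V : Type u} [DecidableEq V] (C : Finset (Finset V)) (hC : IsManifold3 C)
    (hN : NonEvasive C) : IsLC 3 C :=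
  isLC_of_nonEvasive hC hN

end Pool.Agent.Results.MP_9638d9_co.NonEvasiveThreeLC
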